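import Pool.Agent.Lib.MP_c7af3c_ag.EDGE.H46.Final
import Pool.Agent.Lib.MP_c7af3c_ag.EDGE.H19.Dich
import Pool.Agent.Lib.MP_c7af3c_ag.EDGE.H26.Tau
import Pool.Agent.Lib.MP_c7af3c_ag.EDGE.H52.Ultra
import Pool.Agent.Lib.MP_c7af3c_ag.EDGE.H54.Nl
import Pool.Agent.Lib.MP_c7af3c_ag.EDGE.H54.PlaneMain
import Pool.Agent.Lib.MP_c7af3c_ag.EDGE.H60.Pas
import Pool.Agent.Lib.MP_c7af3c_ag.EDGE.H65.Nof
import Pool.Agent.Lib.MP_c7af3c_ag.EDGE.H71.Sbl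
import Pool.Agent.Lib.MP_c7af3c_ag.EDGE.H75.Nrat
import Pool.Agent.Lib.MP_c7af3c_ag.EDGE.H76.Exb
import Pool.Agent.Lib.MP_c7af3c_ag.EDGE.H87.Plem
import Pool.Agent.Lib.MP_c7af3c_ag.EDGE.H9.Bez
import Pool.Agent.Lib.MP_c7af3c_ag.EDGE.H9.Omega

/-!
# MP_c7af3c_ag, project EDGE: the main theorem without hypotheses
-/

set_option autoImplicit false

namespace Pool.Agent.Edge.H46

open AlgebraicGeometry CategoryTheory CategoryTheory.Limits
open MvPolynomial (homogeneousSubmodule)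
open Pool.Agent.Gen Pool.Agent.GenY.H46 Pool.Agent.Sharp Pool.Agent.Sharp.H54
open Pool.Agent.Lines.H46

/-- the height inequality in the borderline case -/
theorem hbe : ∀ e : ℕ, 1 ≤ e →
    ∀ j0 : Fin (2 * e + 1 + 1), Edge.HBE (2 * e + 1) 1 (fun _ => 3 * e + 2) j0 :=
  H19.asm H19.dich H26.tauS H71.sbl H52.ultra H54.nl H87.plem H9.omegaS H54.plane H75.nrat
    H76.exb H9.bez H65.nof H65.nsg H60.pas

section

attribute [local instance] MvPolynomial.gradedAlgebra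

/-- Main theorem, with the borderline case of one hypersurface. -/
theorem mainClosedF (k : Type) [Field k] [IsAlgClosed k] [CharZero k]
    (n c : ℕ) (d : Fin c → ℕ) (F : Fin c → MvPolynomial (Fin (n + 1)) k)
    (hF : ∀ m, (F m).IsHomogeneous (d m))
    (ha : AlgebraicIndependent ℤ (fun s : Ix (M := n) d => MvPolynomial.coeff s.1.2 (F s.1.1)))
    (hd : ∀ m, 1 ≤ d m) (e : ℕ) (h1 : 2 * n + 1 ≤ c + ∑ m, d m + e)
    (h2 : 2 * e + 1 + c ≤ n ∨ (c = 1 ∧ 1 ≤ e ∧ n = 2 * e + 1))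
    (Y : Over (Spec (CommRingCat.of k))) (i : Y.left ⟶ Ell.PP k n) (hi : IsClosedImmersion i)
    (hiY : i ≫ projStr k n = Y.hom)
    (hFY : ∀ m, ∀ y : Y.left, F m ∈ (i.base y).asHomogeneousIdeal) :
    (IsGL k Y ↔ IsAH k Y) ∧ (IsGL k Y ↔ ¬ HasLine i) ∧
    (2 * n ≤ c + ∑ m, d m + 1 → ¬ HasLine i) ∧
    (IsGL k Y → ∀ (X : Over (Spec (CommRingCat.of k))) (f : X ⟶ Y),
      LocallyOfFiniteType X.hom → QuasiCompact X.hom →
      (∀ y : Spec (CommRingCat.of k) ⟶ Y.left,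
        {x : Spec (CommRingCat.of k) ⟶ X.left | x ≫ X.hom = 𝟙 _ ∧ x ≫ f.left = y}.Finite) →
      IsGL k X ∧ IsAH k X) :=
  mainClosedE hbe k n c d F hF ha hd e h1 h2 Y i hi hiY hFY

end

end Pool.Agent.Edge.H46
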