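import Pool.Agent.Lib.MP_c7af3c_ag.LINES.H46.Closed
import Pool.Agent.Lib.MP_c7af3c_ag.EDGE.H19.Asm

/-!
# MP_c7af3c_ag, project EDGE: module FINAL
From the height inequality `HBE` (borderline case) to the schemes. Everything is deduced from the
two height inequalities `HBL` (lines inside) and `HBP` (points which are not on lines inside).
-/

set_option autoImplicit false

namespace Pool.Agent.Edge.H46

open MvPolynomial WithZero Pool.Agent.Gen Pool.Agent.Sharp Pool.Agent.Sharp.H54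
open Pool.Agent.GenY.H46 Pool.Agent.Sharp.H46 AlgebraicGeometry CategoryTheory
open CategoryTheory.Limits
open Pool.Agent.Lines Pool.Agent.Lines.H19 Pool.Agent.Lines.H46
open Pool.Agent.Ell (ngl nah)

section

variable {n c : ℕ} (d : Fin c → ℕ)

/-- the height inequality for the lines inside -/
def HBL : Prop := ∀ i0 j0 : Fin (n + 1), MetC.HB (EL d i0 j0)

/-- the height inequality for the points which are not on lines inside -/
def HBP : Prop := ∀ j0 : Fin (n + 1), MetX.HB (EP d j0) (EX d j0)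

/-- the lines inside in the borderline case -/
theorem htlx3 {L : Type} [Field L] [CharZero L] (D : DSys L n c d) (x y : Fin (n + 1) → L)
    (hxy : LinearIndependent L ![x, y])
    (h0 : Lines.OnLine x y D.F) (e : ℕ) (h1 : 2 * n + 1 = c + ∑ m, d m + e)
    (hnum : ∃ M : ℕ, (∀ m, d m ≤ M) ∧ ∀ q r, q + 1 ≤ e → r + 2 * n = c + ∑ m, d m + q + 2 →
      n + 2 + q + r * M ≤ ∑ m, d m * (d m + 1) / 2)
    (S : PlaceSys L) (hS : S.IsProd) (B : S.V → ℕ) (hB : BD S D B) :
    hL S x y ≤ (4 * n + 2) * tot S B := by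
  have hSL := Lines.H54.lvarx L n c d D x y hxy h0
  have h4 := four L n c d D x y hxy
  obtain ⟨q, hq⟩ := Nat.exists_eq_add_of_le h4
  obtain ⟨M, hM, hnum⟩ := hnum
  exact htlr D x y hxy q hq M hM (by omega) (fun r hr => hnum q r (by omega) hr) S hS B hB

/-- the height inequality for the lines inside, borderline case -/
theorem hbLine3 (e : ℕ) (h1 : 2 * n + 1 = c + ∑ m, d m + e)
    (hnum : ∃ M : ℕ, (∀ m, d m ≤ M) ∧ ∀ q r, q + 1 ≤ e → r + 2 * n = c + ∑ m, d m + q + 2 →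
      n + 2 + q + r * M ≤ ∑ m, d m * (d m + 1) / 2) : HBL (n := n) d := by
  intro i0 j0
  refine ⟨4 * n + 2, fun L _ _ φ D _ z hz S hS _ B hB j => ?_⟩
  obtain ⟨⟨e1, e2, e3, e4⟩, hz0⟩ := (sol_EL d i0 j0 φ D.a z).1 hz
  set x : Fin (n + 1) → L := fun j => z (0, j) with hx
  set y : Fin (n + 1) → L := fun j => z (1, j) with hy
  have hxy : LinearIndependent L ![x, y] := frame_li e1 e2 e3 e4
  have hp : plu x y i0 j0 = 1 := by
    unfold plu
    simp only [hx, hy, e1, e2, e4, one_mul, zero_mul, sub_zero]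
  have key := htlx3 d (toDSysC d D) x y hxy hz0 e h1 hnum S hS B (bd_toDSysC d D S B hB)
  have hzj : z j = plu x y (if j.1 = 0 then j.2 else i0) (if j.1 = 0 then j0 else j.2) := by
    obtain ⟨a, k⟩ := j
    rcases fin2_cases a with rfl | rfl
    · simp only [if_true]
      unfold plu
      simp only [hx, hy, e2, e4, mul_one, zero_mul, sub_zero]
    · simp only [one_ne_zero, if_false]
      unfold plu
      simp only [hx, hy, e1, e3, one_mul, mul_zero, sub_zero]
  rw [hzj]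
  refine (h1_plu_le S hS hp _ _).trans (key.trans (le_of_eq ?_))
  unfold tot
  push_cast
  ring

/-- the height inequality for the points, from `HBE` -/
theorem hbPt3 (h : ∀ j0 : Fin (n + 1), Edge.HBE n c d j0) : HBP (n := n) d := by
  intro j0
  obtain ⟨A, hA⟩ := h j0
  refine ⟨A, fun L _ _ φ D _ z hz hex S hS _ B hB j => ?_⟩
  obtain ⟨hz0, hzF⟩ := (sol_EP d j0 φ D.a z).1 hz
  refine (ht_single_le j0 S hS.fin z hz0 j).trans ?_
  have hno : Edge.NoLine (toDSysC d D) z := by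
    intro y hy
    by_contra hc
    push Not at hc
    obtain ⟨y', hy', hy''⟩ := normalise hz0 hy
    refine hex y' ((sol_EX d j0 φ D.a z y').2 ⟨hy', fun m => ?_⟩)
    exact hy'' _ _ (formOf_hom D.a m) (hc m)
  have key := hA L (toDSysC d D) (toDSysC_comm d D) z hz0 hzF hno S hS B
    (bd_toDSysC d D S B hB)
  exact key

end

section

variable {n c : ℕ} (d : Fin c → ℕ) (k : Type) [Field k] [IsAlgClosed k] [CharZero k]

/-- finitely many lines (with frame at `i0, j0`) -/
theorem finLines3 (a : Ix (M := n) d → k) (ha : AlgebraicIndependent ℤ a)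
    (hl : HBL (n := n) d) (S : Set k) (hS : S.Finite)
    (haS : Set.range a ⊆ S) (i0 j0 : Fin (n + 1)) :
    {z : Fin 2 × Fin (n + 1) → k | (∀ j, z j ∈ IntermediateField.adjoin
      (algebraicClosure ℚ k) S) ∧ MetC.Sol (EL d i0 j0) (Int.castRingHom k) a z}.Finite := by
  have h := MetX.thmlAll k (Ix (M := n) d) (Fin 2 × Fin (n + 1)) Unit (EL d i0 j0) {1}
    (Set.finite_singleton _) a ha (by
      obtain ⟨A, hA⟩ := hl i0 j0
      exact ⟨A, fun L _ _ φ D hD z hz _ S hS hφ M hM j =>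
        hA L φ D hD z hz S hS hφ M hM j⟩) S hS haS
  refine h.subset ?_
  rintro z ⟨hz1, hz2⟩
  refine ⟨hz1, hz2, fun y _ hy => ?_⟩
  have := hy 1 rfl
  rw [eval₂_one] at this
  exact one_ne_zero this

/-- finitely many points which are not on lines inside -/
theorem finPts3 (a : Ix (M := n) d → k) (ha : AlgebraicIndependent ℤ a)
    (hp : HBP (n := n) d) (S : Set k) (hS : S.Finite)
    (haS : Set.range a ⊆ S) (j0 : Fin (n + 1)) :
    {z : Fin (n + 1) → k | (∀ j, z j ∈ IntermediateField.adjoin (algebraicClosure ℚ k) S) ∧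
      MetC.Sol (EP d j0) (Int.castRingHom k) a z ∧
      ∀ y : Fin (n + 1) → k, (∀ j, y j ∈ IntermediateField.adjoin (algebraicClosure ℚ k) S) →
      ¬ MetC.Sol (EX d j0) (Int.castRingHom k) a (Sum.elim z y)}.Finite :=
  MetX.thmlAll k (Ix (M := n) d) (Fin (n + 1)) (Fin (n + 1)) (EP d j0) (EX d j0)
    (finite_EX d j0) a ha (hp j0) S hS haS

/-- the structure of the points over a finitely generated field -/
theorem structure_pts3 (F : Fin c → MvPolynomial (Fin (n + 1)) k)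
    (hF : ∀ m, (F m).IsHomogeneous (d m))
    (ha : AlgebraicIndependent ℤ (fun s : Ix (M := n) d => coeff s.1.2 (F s.1.1)))
    (hl : HBL (n := n) d) (hp : HBP (n := n) d) (S : Set k) (hS : S.Finite) :
    ∃ ℒ : Set ((Fin (n + 1) → k) × (Fin (n + 1) → k)), ℒ.Finite ∧
      (∀ l ∈ ℒ, LinearIndependent k ![l.1, l.2] ∧ ∀ m, lineP (F m) l.1 l.2 = 0) ∧
      ∀ j0 : Fin (n + 1), {x : Fin (n + 1) → k | x j0 = 1 ∧
        (∀ j, x j ∈ Subfield.closure S) ∧ (∀ m, eval x (F m) = 0) ∧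
        ∀ l ∈ ℒ, ¬ ∃ s t : k, x = fun p => s * l.1 p + t * l.2 p}.Finite := by
  classical
  set a : Ix (M := n) d → k := fun s => coeff s.1.2 (F s.1.1) with hadef
  have hFa : ∀ m, F m = formOf a m := fun m => eq_formOf F hF m
  set S' : Set k := S ∪ Set.range a with hS'
  have hS'f : S'.Finite := hS.union (Set.finite_range a)
  have haS' : Set.range a ⊆ S' := Set.subset_union_right
  have hcl : ∀ z ∈ Subfield.closure S,
      z ∈ IntermediateField.adjoin (algebraicClosure ℚ k) S' := by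
    intro z hz
    have h4 : Subfield.closure S ≤
        (IntermediateField.adjoin (algebraicClosure ℚ k) S').toSubfield :=
      Subfield.closure_le.2 fun s hs => IntermediateField.subset_adjoin _ _ (Or.inl hs)
    exact h4 hz
  set 𝒵 : Fin (n + 1) → Fin (n + 1) → Set (Fin 2 × Fin (n + 1) → k) := fun i0 j0 =>
    {z | (∀ j, z j ∈ IntermediateField.adjoin (algebraicClosure ℚ k) S') ∧
      MetC.Sol (EL d i0 j0) (Int.castRingHom k) a z} with h𝒵
  have h𝒵f : ∀ i0 j0, (𝒵 i0 j0).Finite := fun i0 j0 =>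
    finLines3 d k a ha hl S' hS'f haS' i0 j0
  refine ⟨⋃ i0, ⋃ j0, (fun z : Fin 2 × Fin (n + 1) → k =>
    ((fun j => z (0, j)), (fun j => z (1, j)))) '' 𝒵 i0 j0, ?_, ?_, ?_⟩
  · exact Set.finite_iUnion fun i0 => Set.finite_iUnion fun j0 => (h𝒵f i0 j0).image _
  · intro l hl
    simp only [Set.mem_iUnion] at hl
    obtain ⟨i0, j0, z, ⟨-, hz⟩, rfl⟩ := hl
    obtain ⟨⟨e1, e2, e3, e4⟩, hz0⟩ := (sol_EL d i0 j0 _ a z).1 hz
    exact ⟨frame_li e1 e2 e3 e4, fun m => by rw [hFa m]; exact hz0 m⟩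
  · intro j0
    refine (finPts3 d k a ha hp S' hS'f haS' j0).subset ?_
    rintro x ⟨hx1, hx2, hx3, hx4⟩
    refine ⟨fun j => hcl _ (hx2 j), (sol_EP d j0 _ a x).2 ⟨hx1, fun m => by
      rw [← hFa m]; exact hx3 m⟩, fun y hy hsol => ?_⟩
    obtain ⟨⟨hy0, j, hj, hyj⟩, hyF⟩ := (sol_EX d j0 _ a x y).1 hsol
    have hp1 : plu x y j0 j = 1 := by
      unfold plu
      rw [hx1, hyj, hy0]
      ring
    have hp0 : plu x y j0 j ≠ 0 := by rw [hp1]; exact one_ne_zero
    have hmem : ∀ p q, plu x y p q ∈ IntermediateField.adjoin (algebraicClosure ℚ k) S' :=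
      fun p q => sub_mem (mul_mem (hcl _ (hx2 p)) (hy q)) (mul_mem (hcl _ (hx2 q)) (hy p))
    set z : Fin 2 × Fin (n + 1) → k := fun q =>
      if q.1 = 0 then fx x y j0 j q.2 else fy x y j0 j q.2 with hz
    have hz0 : (fun q => z (0, q)) = fx x y j0 j := by
      funext q
      simp [hz]
    have hz1 : (fun q => z (1, q)) = fy x y j0 j := by
      funext q
      simp [hz]
    have hzmem : z ∈ 𝒵 j0 j := by
      refine ⟨fun q => ?_, (sol_EL d j0 j _ a z).2 ⟨⟨?_, ?_, ?_, ?_⟩, fun m => ?_⟩⟩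
      · simp only [hz]
        split_ifs
        · exact div_mem (hmem _ _) (hmem _ _)
        · exact div_mem (hmem _ _) (hmem _ _)
      · simpa [hz] using fx_i x y hp0
      · simpa [hz] using fx_j x y
      · simpa [hz] using fy_i x y
      · simpa [hz] using fy_j x y hp0
      · rw [hz0, hz1]
        exact (lineP_frame x y hp0 (formOf_hom a m)).1 (hyF m)
    refine hx4 (fx x y j0 j, fy x y j0 j) ?_ ⟨x j0, x j, ?_⟩
    · simp only [Set.mem_iUnion]
      exact ⟨j0, j, z, hzmem, by simp only [hz0, hz1]⟩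
    · funext p
      exact x_eq x y hp0 p

/-- finiteness on closed subsets without lines -/
theorem finSolP3 (F : Fin c → MvPolynomial (Fin (n + 1)) k)
    (hF : ∀ m, (F m).IsHomogeneous (d m))
    (ha : AlgebraicIndependent ℤ (fun s : Ix (M := n) d => coeff s.1.2 (F s.1.1)))
    (hl : HBL (n := n) d) (hp : HBP (n := n) d)
    (P : Set (MvPolynomial (Fin (n + 1)) k)) (hFP : Set.range F ⊆ P)
    (hP : ∀ g ∈ P, ∃ e, g.IsHomogeneous e)
    (hno : ∀ x y : Fin (n + 1) → k, LinearIndependent k ![x, y] → ∃ g ∈ P, lineP g x y ≠ 0) :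
    FinSol k n P := by
  intro S hS j0
  obtain ⟨ℒ, hℒ, hℒ1, hℒ2⟩ := structure_pts3 d k F hF ha hl hp S hS
  have hl2 : ∀ l ∈ ℒ, {x : Fin (n + 1) → k | x j0 = 1 ∧ (∀ g ∈ P, eval x g = 0) ∧
      ∃ s t : k, x = fun p => s * l.1 p + t * l.2 p}.Finite := by
    intro l hl
    obtain ⟨g, hg, hg0⟩ := hno l.1 l.2 (hℒ1 l hl).1
    obtain ⟨e', he'⟩ := hP g hg
    refine (fin_on_line he' hg0 j0).subset ?_
    rintro x ⟨q1, q2, q3⟩
    exact ⟨q1, q2 g hg, q3⟩
  refine ((hℒ2 j0).union (hℒ.biUnion hl2)).subset ?_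
  rintro x ⟨hx1, hx2, hx3⟩
  by_cases hex : ∃ l ∈ ℒ, ∃ s t : k, x = fun p => s * l.1 p + t * l.2 p
  · right
    obtain ⟨l, hl', hst⟩ := hex
    simp only [Set.mem_iUnion]
    exact ⟨l, hl', hx1, hx3, hst⟩
  · left
    push Not at hex
    exact ⟨hx1, hx2, fun m => hx3 _ (hFP ⟨m, rfl⟩), fun l hl' hst => by
      obtain ⟨s, t, hst⟩ := hst
      exact hex l hl' s t hst⟩

end

section

attribute [local instance] MvPolynomial.gradedAlgebra

/-- finiteness for closed subschemes without lines -/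
theorem finSolClosed3 (k : Type) [Field k] [IsAlgClosed k] [CharZero k]
    (n c : ℕ) (d : Fin c → ℕ) (F : Fin c → MvPolynomial (Fin (n + 1)) k)
    (hF : ∀ m, (F m).IsHomogeneous (d m))
    (ha : AlgebraicIndependent ℤ (fun s : Ix (M := n) d => MvPolynomial.coeff s.1.2 (F s.1.1)))
    (hl : HBL (n := n) d) (hp : HBP (n := n) d)
    (P : Set (MvPolynomial (Fin (n + 1)) k)) (hFP : Set.range F ⊆ P)
    (hP : ∀ g ∈ P, ∃ e, g.IsHomogeneous e)
    (hno : ∀ x y : Fin (n + 1) → k, LinearIndependent k ![x, y] → ∃ g ∈ P, lineP g x y ≠ 0)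
    (K' : Type) [Field K'] [IsAlgClosed K'] [Algebra k K'] :
    FinSol K' n (MvPolynomial.map (algebraMap k K') '' P) := by
  have : CharZero K' := charZero_of_injective_algebraMap (algebraMap k K').injective
  refine finSolP3 d K' (fun m => MvPolynomial.map (algebraMap k K') (F m))
    (fun m => (hF m).map _) ?_ hl hp (MvPolynomial.map (algebraMap k K') '' P) ?_ ?_ ?_
  · have h1 : (fun s : Ix (M := n) d =>
        MvPolynomial.coeff s.1.2 (MvPolynomial.map (algebraMap k K') (F s.1.1))) =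
        (algebraMap k K').toIntAlgHom ∘
          (fun s : Ix (M := n) d => MvPolynomial.coeff s.1.2 (F s.1.1)) := by
      funext s
      rw [MvPolynomial.coeff_map]
      rfl
    rw [h1]
    exact ha.map' (f := (algebraMap k K').toIntAlgHom) (algebraMap k K').injective
  · rintro _ ⟨m, rfl⟩
    exact ⟨F m, hFP ⟨m, rfl⟩, rfl⟩
  · rintro _ ⟨g, hg, rfl⟩
    obtain ⟨e', he'⟩ := hP g hg
    exact ⟨e', he'.map _⟩
  · intro x y hxy
    by_contra hcon
    push Not at hcon
    obtain ⟨u, v, huv, h0⟩ := line_descent k K' P hP x y hxy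
      (fun g hg => hcon _ ⟨g, hg, rfl⟩)
    obtain ⟨g, hg, hg0⟩ := hno u v huv
    exact hg0 (h0 g hg)

theorem mainClosed3 (k : Type) [Field k] [IsAlgClosed k] [CharZero k]
    (n c : ℕ) (d : Fin c → ℕ) (F : Fin c → MvPolynomial (Fin (n + 1)) k)
    (hF : ∀ m, (F m).IsHomogeneous (d m))
    (ha : AlgebraicIndependent ℤ (fun s : Ix (M := n) d => MvPolynomial.coeff s.1.2 (F s.1.1)))
    (hl : HBL (n := n) d) (hp : HBP (n := n) d)
    (Y : Over (Spec (CommRingCat.of k))) (i : Y.left ⟶ Ell.PP k n) (hi : IsClosedImmersion i)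
    (hiY : i ≫ projStr k n = Y.hom)
    (hFY : ∀ m, ∀ y : Y.left, F m ∈ (i.base y).asHomogeneousIdeal) :
    (IsGL k Y ↔ IsAH k Y) ∧ (IsGL k Y ↔ ¬ HasLine i) ∧
    (2 * n ≤ c + ∑ m, d m + 1 → ¬ HasLine i) ∧
    (IsGL k Y → ∀ (X : Over (Spec (CommRingCat.of k))) (f : X ⟶ Y),
      LocallyOfFiniteType X.hom → QuasiCompact X.hom →
      (∀ y : Spec (CommRingCat.of k) ⟶ Y.left,
        {x : Spec (CommRingCat.of k) ⟶ X.left | x ≫ X.hom = 𝟙 _ ∧ x ≫ f.left = y}.Finite) →
      IsGL k X ∧ IsAH k X) := by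
  have hk : Infinite k := IsAlgClosed.instInfinite
  set P : Set (MvPolynomial (Fin (n + 1)) k) := {g | (∃ e, g.IsHomogeneous e) ∧
    ∀ y : Y.left, g ∈ (i.base y).asHomogeneousIdeal} with hP
  have hgl : HasLine i → ¬ IsGL k Y := by
    rintro ⟨a, b, hab, h⟩
    exact ngl k n Y i hi hiY a b hab h
  have hah : HasLine i → ¬ IsAH k Y := by
    rintro ⟨a, b, hab, h⟩
    exact nah k n Y i hi hiY a b hab h
  have key : ¬ HasLine i → ∀ (X : Over (Spec (CommRingCat.of k))) (f : X ⟶ Y),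
      LocallyOfFiniteType X.hom → QuasiCompact X.hom →
      (∀ y : Spec (CommRingCat.of k) ⟶ Y.left,
        {x : Spec (CommRingCat.of k) ⟶ X.left | x ≫ X.hom = 𝟙 _ ∧ x ≫ f.left = y}.Finite) →
      IsGL k X ∧ IsAH k X := by
    intro hno X f hX1 hX2 hfib
    have hno' : ∀ x y : Fin (n + 1) → k, LinearIndependent k ![x, y] →
        ∃ g ∈ P, lineP g x y ≠ 0 := by
      intro x y hxy
      by_contra hcon
      push Not at hcon
      refine hno ⟨x, y, hxy, fun g hg hgY s t => ?_⟩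
      obtain ⟨e', he'⟩ := hg
      exact lineP_zero g e' he' x y (hcon g ⟨⟨e', he'⟩, hgY⟩) s t
    have hw : (f.left ≫ i) ≫ projStr k n = X.hom := by
      rw [Category.assoc, hiY]
      exact Over.w f
    refine quasi k n P (fun g hg => hg.1) (fun K' _ _ _ => finSolClosed3 k n c d F hF ha hl
      hp P ?_ (fun g hg => hg.1) hno' K') X hX1 hX2 (f.left ≫ i) hw (fun Q => ?_) ?_
    · rintro _ ⟨m, rfl⟩
      exact ⟨⟨d m, hF m⟩, hFY m⟩
    · by_cases hne : {x : Spec (CommRingCat.of k) ⟶ X.left |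
          x ≫ X.hom = 𝟙 _ ∧ x ≫ f.left ≫ i = Q}.Nonempty
      · obtain ⟨x0, -, hx0⟩ := hne
        refine (hfib (x0 ≫ f.left)).subset ?_
        rintro x ⟨hx1, hx2⟩
        refine ⟨hx1, ?_⟩
        rw [← cancel_mono i, Category.assoc, Category.assoc, hx2, hx0]
      · rw [Set.not_nonempty_iff_eq_empty.1 hne]
        exact Set.finite_empty
    · rintro g ⟨-, hg⟩ x
      exact hg (f.left.base x)
  have hself : ¬ HasLine i → IsGL k Y ∧ IsAH k Y := by
    intro hno
    have hlft : LocallyOfFiniteType Y.hom := by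
      rw [← hiY]
      infer_instance
    have hqc : QuasiCompact Y.hom := by
      rw [← hiY]
      have h3 : QuasiCompact (projStr k n) := (Pool.Agent.Ell.H30.pft k n).2.2
      infer_instance
    refine key hno Y (𝟙 Y) hlft hqc fun y => ?_
    refine (Set.finite_singleton y).subset ?_
    rintro x ⟨-, hx⟩
    have h3 : x ≫ (𝟙 Y : Y ⟶ Y).left = x := Category.comp_id x
    rw [h3] at hx
    exact hx
  refine ⟨⟨fun h => ?_, fun h => ?_⟩, ⟨fun h h' => hgl h' h, fun h => (hself h).1⟩, fun h => ?_,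
    fun h => ?_⟩
  · by_contra hc
    exact hc (hself fun hl1 => hgl hl1 h).2
  · exact (hself fun hl1 => hah hl1 h).1
  · rintro ⟨a, b, hab, hl1⟩
    obtain ⟨m, hm⟩ := noLine k n c d F hF ha h a b hab
    apply hm
    refine Polynomial.eq_zero_of_infinite_isRoot _ ?_
    refine Set.infinite_univ.mono fun t _ => ?_
    change (lineP (F m) a b).eval t = 0
    rw [eval_lineP]
    have h3 := hl1 (F m) ⟨d m, hF m⟩ (hFY m) 1 t
    simpa only [one_mul] using h3
  · exact key fun hl1 => hgl hl1 h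


/-- Main theorem, with the borderline case of one hypersurface. -/
theorem mainClosedE (H : ∀ e : ℕ, 1 ≤ e → ∀ j0 : Fin (2 * e + 1 + 1),
      Edge.HBE (2 * e + 1) 1 (fun _ => 3 * e + 2) j0)
    (k : Type) [Field k] [IsAlgClosed k] [CharZero k]
    (n c : ℕ) (d : Fin c → ℕ) (F : Fin c → MvPolynomial (Fin (n + 1)) k)
    (hF : ∀ m, (F m).IsHomogeneous (d m))
    (ha : AlgebraicIndependent ℤ (fun s : Ix (M := n) d => MvPolynomial.coeff s.1.2 (F s.1.1)))
    (hd : ∀ m, 1 ≤ d m) (e : ℕ) (h1 : 2 * n + 1 ≤ c + ∑ m, d m + e)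
    (h2 : 2 * e + 1 + c ≤ n ∨ c = 1 ∧ 1 ≤ e ∧ n = 2 * e + 1)
    (Y : Over (Spec (CommRingCat.of k))) (i : Y.left ⟶ Ell.PP k n) (hi : IsClosedImmersion i)
    (hiY : i ≫ projStr k n = Y.hom)
    (hFY : ∀ m, ∀ y : Y.left, F m ∈ (i.base y).asHomogeneousIdeal) :
    (IsGL k Y ↔ IsAH k Y) ∧ (IsGL k Y ↔ ¬ HasLine i) ∧
    (2 * n ≤ c + ∑ m, d m + 1 → ¬ HasLine i) ∧
    (IsGL k Y → ∀ (X : Over (Spec (CommRingCat.of k))) (f : X ⟶ Y),
      LocallyOfFiniteType X.hom → QuasiCompact X.hom →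
      (∀ y : Spec (CommRingCat.of k) ⟶ Y.left,
        {x : Spec (CommRingCat.of k) ⟶ X.left | x ≫ X.hom = 𝟙 _ ∧ x ≫ f.left = y}.Finite) →
      IsGL k X ∧ IsAH k X) := by
  have key : HBL (n := n) d ∧ HBP (n := n) d := by
    rcases h2 with h2 | ⟨rfl, he, rfl⟩
    · exact ⟨fun i0 j0 => hbLine2 d hd e h1 h2 i0 j0, fun j0 => hbPt2 d hd e h1 h2 j0⟩
    · by_cases hs : 2 * (2 * e + 1) + 1 = 1 + ∑ m, d m + e
      · have hd2 : d = fun _ => 3 * e + 2 := by
          funext m
          rw [Fin.sum_univ_one] at hs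
          obtain rfl : m = 0 := Subsingleton.elim _ _
          omega
        subst hd2
        exact ⟨hbLine3 _ e hs (H19.num_one e he), hbPt3 _ (H e he)⟩
      · exact ⟨fun i0 j0 => hbLine2 d hd (e - 1) (by omega) (by omega) i0 j0,
          fun j0 => hbPt2 d hd (e - 1) (by omega) (by omega) j0⟩
  exact mainClosed3 k n c d F hF ha key.1 key.2 Y i hi hiY hFY

end

end Pool.Agent.Edge.H46
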