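import Pool.Agent.Lib.MP_c7af3c_ag.EDGE.H46.T3

/-!
# MP_c7af3c_ag: the final theorem for all `c` (with the height inequality `HBE` as hypothesis)
-/

set_option autoImplicit false

namespace Pool.Agent.Edge.H46

open AlgebraicGeometry CategoryTheory CategoryTheory.Limits
open MvPolynomial (homogeneousSubmodule)
open Pool.Agent.Gen Pool.Agent.GenY.H46 Pool.Agent.Sharp Pool.Agent.Sharp.H54 Pool.Agent.Sharp.H46
open Pool.Agent.Lines.H46 Pool.Agent.Lines.H19

/-- all the borderline height inequalities -/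
def HbeAllStatement : Prop := ∀ (n c e : ℕ) (d : Fin c → ℕ) (j0 : Fin (n + 1)), 1 ≤ e →
  (∀ m, 1 ≤ d m) → 2 * n + 1 = c + ∑ m, d m + e → n = 2 * e + c → Edge.HBE n c d j0

/-- lines inside, weaker numerical condition -/
theorem htlx4 {L : Type} [Field L] [CharZero L] {n c : ℕ} (d : Fin c → ℕ) (D : DSys L n c d)
    (x y : Fin (n + 1) → L) (hxy : LinearIndependent L ![x, y]) (h0 : Lines.OnLine x y D.F)
    (hnum : 3 * n ≤ c + ∑ m, d m + ∑ m, d m * (d m + 1) / 2)
    (S : PlaceSys L) (hS : S.IsProd) (B : S.V → ℕ) (hB : BD S D B) :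
    hL S x y ≤ (4 * n + 2) * tot S B := by
  have hSL := Lines.H54.lvarx L n c d D x y hxy h0
  have h4 := four L n c d D x y hxy
  obtain ⟨q, hq⟩ := Nat.exists_eq_add_of_le h4
  refine htlr D x y hxy q hq (∑ m, d m)
    (fun m => Finset.single_le_sum (f := d) (fun _ _ => Nat.zero_le _) (Finset.mem_univ m))
    (by omega) (fun r hr => ?_) S hS B hB
  have h5 : r = 0 := by omega
  subst h5
  omega

/-- the height inequality for the lines inside -/
theorem hbLine4 {n c : ℕ} (d : Fin c → ℕ)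
    (hnum : 3 * n ≤ c + ∑ m, d m + ∑ m, d m * (d m + 1) / 2) : HBL (n := n) d := by
  intro i0 j0
  refine ⟨4 * n + 2, fun L _ _ φ D _ z hz S hS _ B hB j => ?_⟩
  obtain ⟨⟨e1, e2, e3, e4⟩, hz0⟩ := (sol_EL d i0 j0 φ D.a z).1 hz
  set x : Fin (n + 1) → L := fun j => z (0, j) with hx
  set y : Fin (n + 1) → L := fun j => z (1, j) with hy
  have hxy : LinearIndependent L ![x, y] := frame_li e1 e2 e3 e4
  have hp : plu x y i0 j0 = 1 := by
    unfold plu
    simp only [hx, hy, e1, e2, e4, one_mul, zero_mul, sub_zero]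
  have key := htlx4 d (toDSysC d D) x y hxy hz0 hnum S hS B (bd_toDSysC d D S B hB)
  have hzj : z j = plu x y (if j.1 = 0 then j.2 else i0) (if j.1 = 0 then j0 else j.2) := by
    obtain ⟨a, k⟩ := j
    rcases Lines.H19.fin2_cases a with rfl | rfl
    · simp only [if_true]
      unfold plu
      simp only [hx, hy, e2, e4, mul_one, zero_mul, sub_zero]
    · simp only [one_ne_zero, if_false]
      unfold plu
      simp only [hx, hy, e1, e3, one_mul, mul_zero, sub_zero]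
  rw [hzj]
  refine (h1_plu_le S hS hp _ _).trans (key.trans (le_of_eq ?_))
  unfold tot
  push_cast
  ring

/-- the numerical condition of the lines inside in the borderline case -/
theorem num_line (n c e : ℕ) (d : Fin c → ℕ) (hd : ∀ m, 1 ≤ d m)
    (h1 : 2 * n + 1 = c + ∑ m, d m + e) (h2 : n = 2 * e + c) :
    3 * n ≤ c + ∑ m, d m + ∑ m, d m * (d m + 1) / 2 := by
  have key : ∀ a : ℕ, 1 ≤ a → 2 * a ≤ a * (a + 1) / 2 + 1 := by
    intro a ha
    have e1 : 4 * a ≤ a * (a + 1) + 2 := by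
      obtain ⟨b, rfl⟩ := Nat.exists_eq_add_of_le ha
      nlinarith [Nat.le_self_pow (two_ne_zero) b]
    omega
  have e3 : ∑ m, 2 * d m ≤ ∑ m, (d m * (d m + 1) / 2 + 1) :=
    Finset.sum_le_sum fun m _ => key _ (hd m)
  rw [Finset.sum_add_distrib, Finset.sum_const, Finset.card_univ, Fintype.card_fin,
    ← Finset.mul_sum, smul_eq_mul, mul_one] at e3
  omega

/-- the height inequality for the lines inside in the borderline case -/
theorem hblAll : ∀ (n c e : ℕ) (d : Fin c → ℕ), 1 ≤ e →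
    (∀ m, 1 ≤ d m) → 2 * n + 1 = c + ∑ m, d m + e → n = 2 * e + c → HBL (n := n) d :=
  fun n c e d _ hd h1 h2 => hbLine4 d (num_line n c e d hd h1 h2)

section

attribute [local instance] MvPolynomial.gradedAlgebra

/-- Main theorem for closed subschemes, with all the borderline cases. -/
theorem mainClosedG (H : HbeAllStatement)
    (k : Type) [Field k] [IsAlgClosed k] [CharZero k]
    (n c : ℕ) (d : Fin c → ℕ) (F : Fin c → MvPolynomial (Fin (n + 1)) k)
    (hF : ∀ m, (F m).IsHomogeneous (d m))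
    (ha : AlgebraicIndependent ℤ (fun s : Ix (M := n) d => MvPolynomial.coeff s.1.2 (F s.1.1)))
    (hd : ∀ m, 1 ≤ d m) (e : ℕ) (h1 : 2 * n + 1 ≤ c + ∑ m, d m + e)
    (h2 : 2 * e + 1 + c ≤ n ∨ (1 ≤ e ∧ 2 * e + c = n))
    (Y : Over (Spec (CommRingCat.of k))) (i : Y.left ⟶ Ell.PP k n) (hi : IsClosedImmersion i)
    (hiY : i ≫ projStr k n = Y.hom)
    (hFY : ∀ m, ∀ y : Y.left, F m ∈ (i.base y).asHomogeneousIdeal) :
    (IsGL k Y ↔ IsAH k Y) ∧ (IsGL k Y ↔ ¬ HasLine i) ∧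
    (2 * n ≤ c + ∑ m, d m + 1 → ¬ HasLine i) ∧
    (IsGL k Y → ∀ (X : Over (Spec (CommRingCat.of k))) (f : X ⟶ Y),
      LocallyOfFiniteType X.hom → QuasiCompact X.hom →
      (∀ y : Spec (CommRingCat.of k) ⟶ Y.left,
        {x : Spec (CommRingCat.of k) ⟶ X.left | x ≫ X.hom = 𝟙 _ ∧ x ≫ f.left = y}.Finite) →
      IsGL k X ∧ IsAH k X) := by
  have key : HBL (n := n) d ∧ HBP (n := n) d := by
    rcases h2 with h2 | ⟨he, h2⟩
    · exact ⟨fun i0 j0 => hbLine2 d hd e h1 h2 i0 j0, fun j0 => hbPt2 d hd e h1 h2 j0⟩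
    · by_cases hs : 2 * n + 1 = c + ∑ m, d m + e
      · exact ⟨hblAll n c e d he hd hs h2.symm, hbPt3 d fun j0 => H n c e d j0 he hd hs h2.symm⟩
      · exact ⟨fun i0 j0 => hbLine2 d hd (e - 1) (by omega) (by omega) i0 j0,
          fun j0 => hbPt2 d hd (e - 1) (by omega) (by omega) j0⟩
  exact mainClosed3 k n c d F hF ha key.1 key.2 Y i hi hiY hFY

/-- The very general complete intersections of dimension at least 2, except the threefolds with
`K = O(1)`. -/
theorem t3G (H : HbeAllStatement) (hK3 : K3Statement)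
    (k : Type) [Field k] [IsAlgClosed k] [CharZero k]
    (n c : ℕ) (d : Fin c → ℕ) (F : Fin c → MvPolynomial (Fin (n + 1)) k)
    (hF : ∀ m, (F m).IsHomogeneous (d m))
    (ha : AlgebraicIndependent ℤ (fun s : Ix (M := n) d => MvPolynomial.coeff s.1.2 (F s.1.1)))
    (hd : ∀ m, 2 ≤ d m) (hdim : c + 2 ≤ n) (hT2 : ¬ (n = c + 3 ∧ ∑ m, d m = n + 2))
    (Y : Over (Spec (CommRingCat.of k))) (i : Y.left ⟶ Ell.PP k n) (hi : IsClosedImmersion i)
    (hiY : i ≫ projStr k n = Y.hom)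
    (hset : ∀ p : Ell.PP k n, (∀ m, F m ∈ p.asHomogeneousIdeal) ↔ p ∈ Set.range i.base) :
    (IsGL k Y ↔ IsAH k Y) ∧
    (IsGL k Y ↔ 2 * n ≤ c + ∑ m, d m + 1 ∧ ¬ (n = c + 2 ∧ ∑ m, d m = n + 1)) :=
  t3 _ (high_of H hblAll) hK3 k n c d F hF ha hd hdim hT2 Y i hi hiY hset

end

end Pool.Agent.Edge.H46
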