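import Pool.Agent.Lib.MP_c7af3c_ag.LINEX.Main
import Pool.Agent.Lib.MP_c7af3c_ag.LINES.H46.Closed
import Pool.Agent.Lib.MP_c7af3c_ag.ELL.H46.Lift

/-!
# MP_c7af3c_ag: very general complete intersections of small degree contain a line, so they are
neither groupless nor arithmetically hyperbolic
-/

set_option autoImplicit false

namespace Pool.Agent.Edge.H46

open AlgebraicGeometry CategoryTheory CategoryTheory.Limits
open MvPolynomial (homogeneousSubmodule)
open Pool.Agent.Gen Pool.Agent.GenY.H46 Pool.Agent.Sharp Pool.Agent.Sharp.H54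
open Pool.Agent.Lines.H46

section

attribute [local instance] MvPolynomial.gradedAlgebra

theorem eval_smul_hom {k : Type} [Field k] {σ : Type} {g : MvPolynomial σ k} {e : ℕ}
    (hg : g.IsHomogeneous e) (c : k) (v : σ → k) :
    MvPolynomial.eval (fun l => c * v l) g = c ^ e * MvPolynomial.eval v g := by
  classical
  rw [MvPolynomial.eval_eq, MvPolynomial.eval_eq, Finset.mul_sum]
  refine Finset.sum_congr rfl fun I hI => ?_
  have h6 := hg (MvPolynomial.mem_support_iff.1 hI)
  rw [Finset.prod_congr rfl fun l _ => mul_pow c (v l) (I l), Finset.prod_mul_distrib,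
    Finset.prod_pow_eq_pow_sum]
  have h7 : ∑ l ∈ I.support, I l = e := by
    rw [← h6, Finsupp.weight_apply, Finsupp.sum]
    simp
  rw [h7]
  ring

/-- the point of projective space with given homogeneous coordinates -/
theorem exists_point (k : Type) [Field k] (n : ℕ) (v : Fin (n + 1) → k) (hv : v ≠ 0) :
    ∃ p : Ell.PP k n, ∀ (g : MvPolynomial (Fin (n + 1)) k) (e : ℕ), g.IsHomogeneous e →
      (g ∈ p.asHomogeneousIdeal ↔ MvPolynomial.eval v g = 0) := by
  obtain ⟨j, hj⟩ : ∃ j, v j ≠ 0 := by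
    by_contra hc
    push Not at hc
    exact hv (funext hc)
  obtain ⟨g, hg1, hg2⟩ := Pool.Agent.Lib.MP_c7af3c_ag.ELL.H86.proj k n k j
    (fun l => (v j)⁻¹ * v l) (inv_mul_cancel₀ hj)
  obtain ⟨h, hc⟩ := hg2 (AlgHom.id k k)
  set P := Spec.map (CommRingCat.ofHom ((AlgHom.id k k : k →ₐ[k] k) : k →+* k)) ≫ g with hP
  have hPs : P ≫ projStr k n = 𝟙 _ := by
    rw [hP, Category.assoc, hg1, ← Spec.map_comp, ← CommRingCat.ofHom_comp]
    exact Spec.map_id _
  refine ⟨P.base (IsLocalRing.closedPoint k), fun F e hF => ?_⟩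
  have hev : MvPolynomial.eval (pcoord k n j P h) F = (v j)⁻¹ ^ e * MvPolynomial.eval v F := by
    rw [hc]
    exact eval_smul_hom hF _ _
  constructor
  · intro hmem
    have h1 := (Gen.H38.sproj k n).zero j P h hPs e F hF (fun a => by
      have h2 : a = IsLocalRing.closedPoint k := by
        have : Subsingleton (PrimeSpectrum k) := inferInstance
        exact Subsingleton.elim (α := PrimeSpectrum k) _ _
      rw [h2]
      exact hmem)
    rw [hev] at h1
    rcases mul_eq_zero.1 h1 with h2 | h2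
    · exact absurd h2 (pow_ne_zero _ (inv_ne_zero hj))
    · exact h2
  · intro h0
    refine Ell.H46.mem_of_eval k n j P h hPs e F hF ?_ _
    rw [hev, h0, mul_zero]

/-- lines in the complete intersection are contained in every closed subscheme with the same
points -/
theorem hasLine_of {k : Type} [Field k] [Infinite k] {n c : ℕ} {d : Fin c → ℕ}
    (F : Fin c → MvPolynomial (Fin (n + 1)) k) (hF : ∀ m, (F m).IsHomogeneous (d m))
    {Y : Scheme.{0}} (i : Y ⟶ Ell.PP k n)
    (hset : ∀ p : Ell.PP k n, (∀ m, F m ∈ p.asHomogeneousIdeal) → p ∈ Set.range i.base)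
    (a b : Fin (n + 1) → k) (hab : LinearIndependent k ![a, b])
    (h : ∀ m, lineP (F m) a b = 0) : HasLine i := by
  refine ⟨a, b, hab, fun g hg hgY s t => ?_⟩
  obtain ⟨e, he⟩ := hg
  refine lineP_zero g e he a b ?_ s t
  refine Polynomial.eq_zero_of_infinite_isRoot _ ?_
  refine Set.infinite_univ.mono fun t _ => ?_
  change (lineP g a b).eval t = 0
  rw [eval_lineP]
  have hv : (fun l => a l + t * b l) ≠ 0 := by
    intro h0
    rw [LinearIndependent.pair_iff] at hab
    have := hab 1 t (by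
      funext l
      have h1 := congrFun h0 l
      simpa using h1)
    exact one_ne_zero this.1
  obtain ⟨p, hp⟩ := exists_point k n _ hv
  obtain ⟨y, hy⟩ := hset p fun m => by
    rw [hp (F m) (d m) (hF m), ← eval_lineP, h m, Polynomial.eval_zero]
  rw [← hp g e he, ← hy]
  exact hgY y

/-- the low side: `c + ∑ d + 2 ≤ 2 n` -/
theorem lowSide (k : Type) [Field k] [IsAlgClosed k] [CharZero k]
    (n c : ℕ) (d : Fin c → ℕ) (F : Fin c → MvPolynomial (Fin (n + 1)) k)
    (hF : ∀ m, (F m).IsHomogeneous (d m))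
    (ha : AlgebraicIndependent ℤ (fun s : Ix (M := n) d => MvPolynomial.coeff s.1.2 (F s.1.1)))
    (hd : ∀ m, 1 ≤ d m) (hn : 1 ≤ n) (hN : c + ∑ m, d m + 2 ≤ 2 * n)
    (Y : Over (Spec (CommRingCat.of k))) (i : Y.left ⟶ Ell.PP k n) (hi : IsClosedImmersion i)
    (hiY : i ≫ projStr k n = Y.hom)
    (hset : ∀ p : Ell.PP k n, (∀ m, F m ∈ p.asHomogeneousIdeal) → p ∈ Set.range i.base) :
    HasLine i ∧ ¬ IsGL k Y ∧ ¬ IsAH k Y := by
  have hk : Infinite k := IsAlgClosed.instInfinite
  obtain ⟨a, b, hab, h⟩ := Linex.lineExists' k n c d F hF ha hd hn hN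
  have hl : HasLine i := hasLine_of F hF i hset a b hab h
  refine ⟨hl, ?_, ?_⟩
  · obtain ⟨a, b, hab, h⟩ := hl
    exact Ell.ngl k n Y i hi hiY a b hab h
  · obtain ⟨a, b, hab, h⟩ := hl
    exact Ell.nah k n Y i hi hiY a b hab h

end

end Pool.Agent.Edge.H46
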