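import Pool.Agent.Lib.MP_c7af3c_ag.EDGE.H46.Main
import Pool.Agent.Lib.MP_c7af3c_ag.EDGE.H46.Low

/-!
# MP_c7af3c_ag: Q1 for every very general complete intersection of dimension at least two
(assembly; the borderline height inequality for `c ≥ 2`, the K3 surfaces and the threefolds with
`K = O(1)` are hypotheses)
-/

set_option autoImplicit false

namespace Pool.Agent.Edge.H46

open AlgebraicGeometry CategoryTheory CategoryTheory.Limits
open MvPolynomial (homogeneousSubmodule)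
open Pool.Agent.Gen Pool.Agent.GenY.H46 Pool.Agent.Sharp Pool.Agent.Sharp.H54
open Pool.Agent.Lines.H46 Pool.Agent.Lines.H19

section

attribute [local instance] MvPolynomial.gradedAlgebra

/-- Statement: the very general K3 surfaces are neither groupless nor arithmetically hyperbolic. -/
def K3Statement : Prop := ∀ (k : Type) [Field k] [IsAlgClosed k] [CharZero k]
    (n c : ℕ) (d : Fin c → ℕ) (F : Fin c → MvPolynomial (Fin (n + 1)) k),
    (∀ m, (F m).IsHomogeneous (d m)) →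
    AlgebraicIndependent ℤ (fun s : Ix (M := n) d => MvPolynomial.coeff s.1.2 (F s.1.1)) →
    (∀ m, 2 ≤ d m) → n = c + 2 → ∑ m, d m = n + 1 →
    ∀ (Y : Over (Spec (CommRingCat.of k))) (i : Y.left ⟶ Ell.PP k n), IsClosedImmersion i →
    i ≫ projStr k n = Y.hom →
    (∀ p : Ell.PP k n, (∀ m, F m ∈ p.asHomogeneousIdeal) → p ∈ Set.range i.base) →
    ¬ IsGL k Y ∧ ¬ IsAH k Y

/-- Statement: the height inequalities of the range `2 n ≤ c + ∑ d + 1`, `3 ≤ n - c` or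
`2 n ≤ c + ∑ d`, `2 = n - c`. -/
def HighStatement (P : ℕ → ℕ → ℕ → Prop) : Prop := ∀ (n c : ℕ) (d : Fin c → ℕ), (∀ m, 1 ≤ d m) →
    c + 2 ≤ n → 2 * n ≤ c + ∑ m, d m + 1 → ¬ (n = c + 2 ∧ ∑ m, d m = n + 1) →
    P n c (∑ m, d m) → HBL (n := n) d ∧ HBP (n := n) d

/-- T3 without the threefolds with `K = O(1)`. -/
theorem high_of (H : ∀ (n c e : ℕ) (d : Fin c → ℕ) (j0 : Fin (n + 1)), 1 ≤ e →
      (∀ m, 1 ≤ d m) → 2 * n + 1 = c + ∑ m, d m + e → n = 2 * e + c → Edge.HBE n c d j0)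
    (HL : ∀ (n c e : ℕ) (d : Fin c → ℕ), 1 ≤ e →
      (∀ m, 1 ≤ d m) → 2 * n + 1 = c + ∑ m, d m + e → n = 2 * e + c → HBL (n := n) d) :
    HighStatement fun n c D => ¬ (n = c + 3 ∧ D = n + 2) := by
  intro n c d hd hdim hS hK3 hT2
  by_cases h0 : 2 * n + 1 ≤ c + ∑ m, d m
  · exact ⟨fun i0 j0 => hbLine2 d hd 0 (by omega) (by omega) i0 j0,
      fun j0 => hbPt2 d hd 0 (by omega) (by omega) j0⟩
  · obtain ⟨e, he, he1, he2⟩ : ∃ e, 1 ≤ e ∧ e ≤ 2 ∧ 2 * n + 1 = c + ∑ m, d m + e :=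
      ⟨2 * n + 1 - (c + ∑ m, d m), by omega, by omega, by omega⟩
    by_cases h1 : 2 * e + 1 + c ≤ n
    · exact ⟨fun i0 j0 => hbLine2 d hd e (by omega) h1 i0 j0,
        fun j0 => hbPt2 d hd e (by omega) h1 j0⟩
    · by_cases h2 : n = 2 * e + c
      · exact ⟨HL n c e d he hd he2 h2, hbPt3 d fun j0 => H n c e d j0 he hd he2 h2⟩
      · exfalso
        have : e = 1 ∨ e = 2 := by omega
        rcases this with rfl | rfl <;> omega

/-- The very general complete intersections of dimension at least 2. -/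
theorem t3 (P : ℕ → ℕ → ℕ → Prop) (hHigh : HighStatement P) (hK3 : K3Statement)
    (k : Type) [Field k] [IsAlgClosed k] [CharZero k]
    (n c : ℕ) (d : Fin c → ℕ) (F : Fin c → MvPolynomial (Fin (n + 1)) k)
    (hF : ∀ m, (F m).IsHomogeneous (d m))
    (ha : AlgebraicIndependent ℤ (fun s : Ix (M := n) d => MvPolynomial.coeff s.1.2 (F s.1.1)))
    (hd : ∀ m, 2 ≤ d m) (hdim : c + 2 ≤ n) (hP : P n c (∑ m, d m))
    (Y : Over (Spec (CommRingCat.of k))) (i : Y.left ⟶ Ell.PP k n) (hi : IsClosedImmersion i)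
    (hiY : i ≫ projStr k n = Y.hom)
    (hset : ∀ p : Ell.PP k n, (∀ m, F m ∈ p.asHomogeneousIdeal) ↔ p ∈ Set.range i.base) :
    (IsGL k Y ↔ IsAH k Y) ∧
    (IsGL k Y ↔ 2 * n ≤ c + ∑ m, d m + 1 ∧ ¬ (n = c + 2 ∧ ∑ m, d m = n + 1)) := by
  have hd1 : ∀ m, 1 ≤ d m := fun m => (Nat.le_succ 1).trans (hd m)
  by_cases h1 : 2 * n ≤ c + ∑ m, d m + 1
  · by_cases h2 : n = c + 2 ∧ ∑ m, d m = n + 1
    · obtain ⟨h3, h4⟩ := hK3 k n c d F hF ha hd h2.1 h2.2 Y i hi hiY fun p hp => (hset p).1 hp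
      exact ⟨⟨fun h => absurd h h3, fun h => absurd h h4⟩,
        ⟨fun h => absurd h h3, fun h => absurd h2 h.2⟩⟩
    · obtain ⟨hl, hp⟩ := hHigh n c d hd1 hdim h1 h2 hP
      obtain ⟨h3, h4, h5, -⟩ := mainClosed3 k n c d F hF ha hl hp Y i hi hiY fun m y =>
        (hset _).2 ⟨y, rfl⟩ m
      have h6 : IsGL k Y := h4.2 (h5 h1)
      exact ⟨h3, ⟨fun _ => ⟨h1, h2⟩, fun _ => h6⟩⟩
  · obtain ⟨-, h3, h4⟩ := lowSide k n c d F hF ha hd1 (by omega) (by omega) Y i hi hiY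
      fun p hp => (hset p).1 hp
    exact ⟨⟨fun h => absurd h h3, fun h => absurd h h4⟩,
      ⟨fun h => absurd h h3, fun h => absurd h.1 h1⟩⟩

end

end Pool.Agent.Edge.H46
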